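import Pool.Agent.W_04c03c_h62q.QPg
import Pool.Agent.W_04c03c_h58.FrG

/-!
Deep fillings of large groups.
-/

namespace Pool.Agent.W_04c03c_X58

open RCan Q62

/-- A group is large if and only if, for any finitely many virtually commutative subgroups `B i`, it
has a normal subgroup `N` of finite index such that the quotients by elements of `N` which are
conjugate into the `B i` are large. -/
theorem large_iff_deep (Q : Type) [Group Q] :
    IsLarge Q ↔ ∀ (r : ℕ) (B : Fin r → Subgroup Q),
      (∀ i, ∃ A : Subgroup Q, A ≤ B i ∧ A.relIndex (B i) ≠ 0 ∧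
        ∀ a ∈ A, ∀ b ∈ A, a * b = b * a) →
      ∃ N : Subgroup Q, N.Normal ∧ N.FiniteIndex ∧ ∀ T : Set Q,
        (∀ t ∈ T, t ∈ N ∧ ∃ (g : Q) (i : Fin r), g * t * g⁻¹ ∈ B i) →
          IsLarge (Q ⧸ Subgroup.normalClosure T) := by
  constructor
  · intro h r B hB
    exact large_fill h B hB
  · intro h
    obtain ⟨N, -, -, hN⟩ := h 0 (fun i => i.elim0) (fun i => i.elim0)
    have h1 := hN ∅ (fun t ht => absurd ht (Set.notMem_empty t))
    obtain ⟨M, hM, f, hf⟩ := h1
    let q : Q →* Q ⧸ Subgroup.normalClosure (∅ : Set Q) := QuotientGroup.mk' _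
    have hq : Function.Surjective q := QuotientGroup.mk'_surjective _
    refine ⟨M.comap q, ?_, f.comp (q.subgroupComap M), ?_⟩
    · exact ⟨by rw [Subgroup.index_comap_of_surjective M hq]; exact hM.index_ne_zero⟩
    · rw [MonoidHom.coe_comp]
      exact hf.comp (MonoidHom.subgroupComap_surjective_of_surjective q M hq)

end Pool.Agent.W_04c03c_X58
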